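import Mathlib

/-! Convergent sequences, their limits and their classes in an ultrapower. -/

namespace Pool.Agent.MP_8d06cc_nt.RIG

open Polynomial Filter Topology

noncomputable section

/-- sequences together with their limit -/
def Cv : Subalgebra ℂ (Option ℕ → ℂ) where
  carrier := {s | Tendsto (fun n => s (some n)) atTop (𝓝 (s none))}
  mul_mem' := fun ha hb => Tendsto.mul ha hb
  add_mem' := fun ha hb => Tendsto.add ha hb
  algebraMap_mem' := fun _ => tendsto_const_nhds

/-- evaluation -/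
def ev (x : Option ℕ) : Cv →+* ℂ := (Pi.evalRingHom (fun _ => ℂ) x).comp Cv.val.toRingHom

theorem ev_apply (x : Option ℕ) (s : Cv) : ev x s = s.1 x := rfl

theorem ev_alg (x : Option ℕ) (c : ℂ) : ev x (algebraMap ℂ Cv c) = c := rfl

/-- a convergent sequence as an element -/
def mkC (p : ℕ → ℂ) (q : ℂ) (h : Tendsto p atTop (𝓝 q)) : Cv := ⟨fun x => x.elim q p, h⟩

/-- the pointwise inverse -/
def inv (s : Cv) (h : ev none s ≠ 0) : Cv := ⟨fun x => (s.1 x)⁻¹, Tendsto.inv₀ s.2 h⟩

theorem ev_ne (s : Cv) (h : ev none s ≠ 0) :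
    ∀ᶠ n in (hyperfilter ℕ : Filter ℕ), ev (some n) s ≠ 0 :=
  (Tendsto.eventually_ne s.2 h).filter_mono Nat.hyperfilter_le_atTop

/-- a generic point of the sequence -/
structure Gen (K : Type) [Field K] [Algebra ℂ K] (Φ : Cv →+* K) : Prop where
  alg : ∀ c, Φ (algebraMap ℂ Cv c) = algebraMap ℂ K c
  ker : ∀ s, Φ s = 0 ↔ ∀ᶠ n in (hyperfilter ℕ : Filter ℕ), ev (some n) s = 0

theorem exK : ∃ (K : Type) (_ : Field K) (_ : IsAlgClosed K) (_ : Algebra ℂ K) (Φ : Cv →+* K),
    Gen K Φ := by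
  let K₀ := Germ (hyperfilter ℕ : Filter ℕ) ℂ
  let Φ₀ : Cv →+* K₀ := (Germ.coeRingHom _).comp (Pi.ringHom fun n => ev (some n))
  let Φ : Cv →+* AlgebraicClosure K₀ := (algebraMap K₀ _).comp Φ₀
  refine ⟨AlgebraicClosure K₀, inferInstance, inferInstance,
    (Φ.comp (algebraMap ℂ Cv)).toAlgebra, Φ, ?_⟩
  letI := (Φ.comp (algebraMap ℂ Cv)).toAlgebra
  refine ⟨fun _ => rfl, fun s => ?_⟩
  change algebraMap K₀ _ (Φ₀ s) = 0 ↔ _
  rw [_root_.map_eq_zero]
  exact Germ.coe_eq (f := fun n => ev (some n) s) (g := fun _ => 0)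

variable {K : Type} [Field K] [Algebra ℂ K] {Φ : Cv →+* K}

theorem Gen.ne_of_ev (g : Gen K Φ) {s : Cv}
    (h : ∀ᶠ n in (hyperfilter ℕ : Filter ℕ), ev (some n) s ≠ 0) : Φ s ≠ 0 := fun h0 => by
  obtain ⟨n, h1, h2⟩ := (h.and ((g.ker s).1 h0)).exists
  exact h1 h2

theorem Gen.ne_all (g : Gen K Φ) {s : Cv} (h : ∀ n, ev (some n) s ≠ 0) : Φ s ≠ 0 :=
  g.ne_of_ev (Eventually.of_forall h)

theorem Gen.ne_lim (g : Gen K Φ) {s : Cv} (h : ev none s ≠ 0) : Φ s ≠ 0 := g.ne_of_ev (ev_ne s h)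

theorem Gen.eq_all (g : Gen K Φ) {s t : Cv} (h : ∀ n, ev (some n) s = ev (some n) t) :
    Φ s = Φ t := by
  rw [← sub_eq_zero, ← map_sub, g.ker]
  exact Eventually.of_forall fun n => by rw [map_sub, h, sub_self]

theorem Gen.map_eq (g : Gen K Φ) {p q : Cv[X]}
    (h : ∀ n, p.map (ev (some n)) = q.map (ev (some n))) : p.map Φ = q.map Φ := by
  ext i
  rw [coeff_map, coeff_map]
  exact g.eq_all fun n => by simpa only [coeff_map] using congrArg (coeff · i) (h n)

theorem Gen.inv (g : Gen K Φ) (s : Cv) (h : ev none s ≠ 0) : Φ (inv s h) = (Φ s)⁻¹ := by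
  apply eq_inv_of_mul_eq_one_right
  rw [← map_mul, ← sub_eq_zero, ← map_one Φ, ← map_sub, g.ker]
  refine (ev_ne s h).mono fun n hn => ?_
  rw [map_sub, map_mul, map_one, sub_eq_zero]
  exact mul_inv_cancel₀ hn

theorem Gen.fix (g : Gen K Φ) {s : Cv} (h : Φ s ∈ (algebraMap ℂ K).range) :
    ∀ᶠ n in (hyperfilter ℕ : Filter ℕ), ev (some n) s = ev none s := by
  obtain ⟨c, hc⟩ := h
  have h0 : Φ (s - algebraMap ℂ Cv c) = 0 := by rw [map_sub, g.alg, hc, sub_self]
  have h1 : ev none (s - algebraMap ℂ Cv c) = 0 := by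
    by_contra h1
    exact g.ne_lim h1 h0
  rw [map_sub, ev_alg, sub_eq_zero] at h1
  refine ((g.ker _).1 h0).mono fun n hn => ?_
  rwa [map_sub, ev_alg, sub_eq_zero, ← h1] at hn

theorem lift (p : ℕ → ℂ[X]) (q : ℂ[X]) (D : ℕ)
    (h : ∀ i, Tendsto (fun n => (p n).coeff i) atTop (𝓝 (q.coeff i)))
    (hp : ∀ n, (p n).natDegree ≤ D) : ∃ P : Cv[X], P.natDegree ≤ D ∧
      (∀ n, P.map (ev (some n)) = p n) ∧ P.map (ev none) = q := by
  have hc : ∀ i, (∑ j ∈ Finset.range (D + 1), monomial j (mkC _ _ (h j))).coeff i =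
      mkC _ _ (h i) := fun i => by
    simp only [finsetSum_coeff, coeff_monomial, Finset.sum_ite_eq', Finset.mem_range]
    split_ifs with hi
    · rfl
    · have h1 : ∀ n, (p n).coeff i = 0 := fun n =>
        coeff_eq_zero_of_natDegree_lt (by have := hp n; omega)
      have h2 : q.coeff i = 0 :=
        tendsto_nhds_unique (h i) (by simp only [h1]; exact tendsto_const_nhds)
      refine Subtype.ext (funext fun x => ?_)
      cases x with
      | none => exact h2.symm
      | some n => exact (h1 n).symm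
  refine ⟨∑ j ∈ Finset.range (D + 1), monomial j (mkC _ _ (h j)), ?_, fun n => ?_, ?_⟩
  · refine natDegree_sum_le_of_forall_le _ _ fun j hj => (natDegree_monomial_le _).trans ?_
    exact Nat.lt_succ_iff.1 (Finset.mem_range.1 hj)
  · ext i
    rw [coeff_map, hc]
    rfl
  · ext i
    rw [coeff_map, hc]
    rfl

theorem Gen.indep (g : Gen K Φ) (G : Fin 3 → Cv[X]) (q : Fin 3 → ℝ[X])
    (hq : LinearIndependent ℝ q) (h : ∀ k, (G k).map (ev none) = (q k).map (algebraMap ℝ ℂ))
    (l : Fin 3 → K) (hl : ∑ k, C (l k) * (G k).map Φ = 0) : l = 0 := by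
  obtain ⟨φ, hφ⟩ := LinearMap.exists_leftInverse_of_injective (Fintype.linearCombination ℝ q)
    (LinearMap.ker_eq_bot.2 (linearIndependent_iff_injective_fintypeLinearCombination.1 hq))
  obtain ⟨D, hD⟩ : ∃ D, ∀ k, (G k).natDegree < D ∧ (q k).natDegree < D :=
    ⟨∑ k, ((G k).natDegree + (q k).natDegree) + 1, fun k => by
      have := Finset.single_le_sum (f := fun k => (G k).natDegree + (q k).natDegree)
        (fun _ _ => Nat.zero_le _) (Finset.mem_univ k)
      omega⟩
  let M : Matrix (Fin 3) (Fin 3) Cv := Matrix.of fun j k => ∑ i ∈ Finset.range D,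
    algebraMap ℂ Cv (φ (X ^ i) j : ℝ) * (G k).coeff i
  have h1 : (ev none).mapMatrix M = 1 := by
    ext j k
    have e1 : φ (q k) = Pi.single k 1 := by
      have := LinearMap.congr_fun hφ (Pi.single k 1)
      simpa [Fintype.linearCombination_apply_single] using this
    have e2 : φ (q k) j = ∑ i ∈ Finset.range D, φ (X ^ i) j * (q k).coeff i := by
      conv_lhs => rw [(q k).as_sum_range' D (hD k).2]
      simp only [map_sum, Finset.sum_apply, ← smul_X_eq_monomial, map_smul, Pi.smul_apply,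
        smul_eq_mul, mul_comm]
    have e3 : ∀ i, ev none ((G k).coeff i) = ((q k).coeff i : ℝ) := fun i => by
      have := congrArg (coeff · i) (h k)
      simp only [coeff_map] at this
      exact this
    simp only [M, RingHom.mapMatrix_apply, Matrix.map_apply, Matrix.of_apply, map_sum, map_mul,
      ev_alg, e3]
    rw [e1] at e2
    have e4 := congrArg (fun r : ℝ => (r : ℂ)) e2
    push_cast at e4
    rw [← e4, Matrix.one_apply, Pi.single_apply]
    split_ifs <;> simp
  have h2 : (Φ.mapMatrix M).det ≠ 0 := by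
    rw [← RingHom.map_det]
    apply g.ne_lim
    rw [RingHom.map_det, h1, Matrix.det_one]
    exact one_ne_zero
  refine Matrix.eq_zero_of_mulVec_eq_zero h2 (funext fun j => ?_)
  have e5 : ∀ i, ∑ k, l k * Φ ((G k).coeff i) = 0 := fun i => by
    simpa only [finsetSum_coeff, coeff_C_mul, coeff_map, coeff_zero] using
      congrArg (coeff · i) hl
  simp only [M, Matrix.mulVec, dotProduct, RingHom.mapMatrix_apply, Matrix.map_apply,
    Matrix.of_apply, map_sum, map_mul, Finset.sum_mul, Pi.zero_apply]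
  rw [Finset.sum_comm]
  refine Finset.sum_eq_zero fun i _ => ?_
  simp only [mul_assoc]
  rw [← Finset.mul_sum]
  simp only [mul_comm _ (l _), e5, mul_zero]

theorem Gen.sep (g : Gen K Φ) {f : Cv[X]} (hd : f.natDegree ≤ 8)
    (h8 : (f.map (ev none)).natDegree = 8) (hs : (f.map (ev none)).Separable) :
    (f.map Φ).Separable := by
  have h7 : (derivative (f.map (ev none))).natDegree = 7 := by
    rw [natDegree_derivative, h8]
  have h1 := resultant_ne_zero _ _ hs
  rw [h8, h7, derivative_map, resultant_map_map] at h1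
  have h2 := g.ne_lim h1
  rw [← resultant_map_map, ← derivative_map] at h2
  obtain ⟨p, q, _, _, e⟩ := exists_mul_add_mul_eq_C_resultant (m := 8) (n := 7) (f.map Φ)
    (derivative (f.map Φ)) (natDegree_map_le.trans hd)
    (by have := natDegree_derivative_le (f.map Φ); have := natDegree_map_le (f := Φ) (p := f); omega)
    (Or.inl (by norm_num))
  have e1 : C ((f.map Φ).resultant (derivative (f.map Φ)) 8 7)⁻¹ *
      C ((f.map Φ).resultant (derivative (f.map Φ)) 8 7) = 1 := by
    rw [← C_mul, inv_mul_cancel₀ h2, C_1]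
  generalize C ((f.map Φ).resultant (derivative (f.map Φ)) 8 7)⁻¹ = w at e1
  exact ⟨w * p, w * q, by rw [← e1, ← e]; ring⟩

end

end Pool.Agent.MP_8d06cc_nt.RIG
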