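import Pool.Agent.MP_8d06cc_nt.RIG.Flip
import Pool.Agent.MP_8d06cc_nt.RIG.Conv
import Pool.Agent.MP_8d06cc_nt.DA.Fin
import Pool.Agent.MP_8d06cc_nt.VAL.Main
import Pool.Agent.MP_8d06cc_nt.R3.Stmt

/-! Block RIG. -/

namespace Pool.Agent.MP_8d06cc_nt.RIG

open Polynomial Filter Topology
open DA AB

noncomputable section

/-- a sequence of data, as data over the ring of convergent sequences -/
structure Seq {m : ℕ} (N : ℕ) (y : ℕ → NF ℂ m) (S : ℕ → TD ℂ m) where
  f : Cv[X]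
  a : Fin (m + 2) → Cv
  b : Fin (m + 2) → Cv
  A0 : Cv[X]
  B0 : Cv[X]
  A : Fin (m + 2) → Cv[X]
  B : Fin (m + 2) → Cv[X]
  df : f.natDegree ≤ 8
  dA0 : A0.natDegree ≤ N
  dB0 : B0.natDegree ≤ N - 4
  dA : ∀ i, (A i).natDegree ≤ N
  dB : ∀ i, (B i).natDegree ≤ N - 4
  ef : ∀ n, f.map (ev (some n)) = (y n).f
  ea : ∀ n i, ev (some n) (a i) = (y n).a i
  eb : ∀ n i, ev (some n) (b i) = (y n).b i
  eA0 : ∀ n, A0.map (ev (some n)) = (S n).A0
  eB0 : ∀ n, B0.map (ev (some n)) = (S n).B0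
  eA : ∀ n i, (A i).map (ev (some n)) = (S n).A i
  eB : ∀ n i, (B i).map (ev (some n)) = (S n).B i

theorem c_eq {k : Type} [Field k] {g : k[X]} {c a : k} {n : ℕ} (h : g = C c * (X - C a) ^ n) :
    g.coeff n = c := by
  have h1 := ((monic_X_sub_C a).pow n).coeff_natDegree
  rw [natDegree_pow, natDegree_X_sub_C, mul_one] at h1
  rw [h, coeff_C_mul, h1, mul_one]

theorem map_eval {R S : Type} [CommRing R] [CommRing S] (h : R →+* S) (p : R[X]) (a : R) :
    h (p.eval a) = (p.map h).eval (h a) := by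
  rw [eval_map, eval₂_at_apply]

variable {K : Type} [Field K] [Algebra ℂ K] {Φ : Cv →+* K} {m N : ℕ} {y : ℕ → NF ℂ m}
  {S : ℕ → TD ℂ m}

theorem Seq.top (s : Seq N y S) (g : Gen K Φ) : (s.f.map Φ).coeff 8 = 1 := by
  rw [coeff_map, ← map_one Φ]
  refine g.eq_all fun n => ?_
  rw [← coeff_map, s.ef, map_one, ← (y n).deg]
  exact (y n).mon

/-- the generic normal form -/
def Seq.nf (s : Seq N y S) (g : Gen K Φ) (hs : (s.f.map Φ).Separable) : NF K m where
  f := s.f.map Φ
  a := fun i => Φ (s.a i)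
  b := fun i => Φ (s.b i)
  mon := monic_of_natDegree_le_of_coeff_eq_one 8 (natDegree_map_le.trans s.df) (s.top g)
  deg := natDegree_eq_of_le_of_coeff_ne_zero (natDegree_map_le.trans s.df)
    (by rw [s.top g]; exact one_ne_zero)
  sep := hs
  a0 := by
    rw [← map_zero Φ]
    exact g.eq_all fun n => by rw [s.ea, (y n).a0, map_zero]
  a1 := by
    rw [← map_one Φ]
    exact g.eq_all fun n => by rw [s.ea, (y n).a1, map_one]
  ainj := fun i j h => by
    by_contra hij
    refine g.ne_all (s := s.a i - s.a j) (fun n => ?_) (by rw [map_sub]; exact sub_eq_zero.2 h)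
    rw [map_sub, s.ea, s.ea]
    exact sub_ne_zero.2 fun q => hij ((y n).ainj q)
  hb := fun i => by
    rw [← map_pow, ← map_eval]
    exact g.eq_all fun n => by rw [map_pow, map_eval, s.ef, s.ea, s.eb, (y n).hb]
  b0 := fun i => g.ne_all fun n => by rw [s.eb]; exact (y n).b0 i

/-- the generic solutions -/
def Seq.td (s : Seq N y S) (Φ : Cv →+* K) : TD K m :=
  ⟨s.A0.map Φ, s.B0.map Φ, fun i => (s.A i).map Φ, fun i => (s.B i).map Φ⟩

theorem Seq.tor (s : Seq N y S) (g : Gen K Φ) (hs : (s.f.map Φ).Separable)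
    (h : ∀ n, (y n).Tor N (S n)) : (s.nf g hs).Tor N (s.td Φ) := by
  have N4 : 4 ≤ N := le_trans (Nat.le_add_left _ _) (h 0).dB0
  have dB : ∀ B : Cv[X], B.natDegree ≤ N - 4 → (B.map Φ).natDegree + 4 ≤ N := fun B hB => by
    have := natDegree_map_le (f := Φ) (p := B)
    omega
  refine ⟨?_, dB _ s.dB0, ⟨Φ ((s.A0 ^ 2 - s.f * s.B0 ^ 2).coeff 0), ?_, ?_⟩,
    fun i => natDegree_map_le.trans (s.dA i), fun i => dB _ (s.dB i),
    fun i => ⟨Φ ((s.A i ^ 2 - s.f * s.B i ^ 2).coeff (2 * N)), ?_, ?_⟩, fun i => ?_, fun i => ?_⟩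
  · refine natDegree_eq_of_le_of_coeff_ne_zero (natDegree_map_le.trans s.dA0) ?_
    change (s.A0.map Φ).coeff N ≠ 0
    rw [coeff_map]
    refine g.ne_all fun n => ?_
    rw [← coeff_map, s.eA0, ← (h n).dA0, coeff_natDegree, leadingCoeff_ne_zero]
    intro q
    have := (h n).dA0
    rw [q, natDegree_zero] at this
    omega
  · refine g.ne_all fun n => ?_
    obtain ⟨c, c0, he⟩ := (h n).eq0
    rwa [← coeff_map, Polynomial.map_sub, Polynomial.map_mul, Polynomial.map_pow,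
      Polynomial.map_pow, s.eA0, s.eB0, s.ef, he, coeff_C_zero]
  · have := g.map_eq (p := s.A0 ^ 2 - s.f * s.B0 ^ 2)
      (q := C ((s.A0 ^ 2 - s.f * s.B0 ^ 2).coeff 0)) fun n => by
      obtain ⟨c, c0, he⟩ := (h n).eq0
      rw [map_C, ← coeff_map, Polynomial.map_sub, Polynomial.map_mul, Polynomial.map_pow,
        Polynomial.map_pow, s.eA0, s.eB0, s.ef, he, coeff_C_zero]
    rwa [map_C, Polynomial.map_sub, Polynomial.map_mul, Polynomial.map_pow,
      Polynomial.map_pow] at this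
  · refine g.ne_all fun n => ?_
    obtain ⟨c, c0, he⟩ := (h n).eqn i
    rwa [← coeff_map, Polynomial.map_sub, Polynomial.map_mul, Polynomial.map_pow,
      Polynomial.map_pow, s.eA, s.eB, s.ef, c_eq he]
  · have := g.map_eq (p := s.A i ^ 2 - s.f * s.B i ^ 2)
      (q := C ((s.A i ^ 2 - s.f * s.B i ^ 2).coeff (2 * N)) * (X - C (s.a i)) ^ (2 * N)) fun n => by
      obtain ⟨c, c0, he⟩ := (h n).eqn i
      rw [Polynomial.map_mul, map_C, ← coeff_map]
      simp only [Polynomial.map_sub, Polynomial.map_mul, Polynomial.map_pow, map_X, map_C, s.eA,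
        s.eB, s.ef, s.ea]
      rw [c_eq he, he]
    simp only [Polynomial.map_sub, Polynomial.map_mul, Polynomial.map_pow, map_X, map_C] at this
    exact this
  · change ((s.A i).map Φ).eval (Φ (s.a i)) ≠ 0
    rw [← map_eval]
    exact g.ne_all fun n => by rw [map_eval, s.eA, s.ea]; exact (h n).hA i
  · change ((s.A i).map Φ).eval (Φ (s.a i)) + ((s.B i).map Φ).eval (Φ (s.a i)) * Φ (s.b i) = 0
    rw [← map_eval, ← map_eval, ← map_mul, ← map_add, ← map_zero Φ]
    exact g.eq_all fun n => by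
      rw [map_add, map_mul, map_eval, map_eval, s.eA, s.eB, s.ea, s.eb, (h n).sgn, map_zero]

theorem dep3 {k : Type} [Field k] {P : Fin 3 → PD k} (h : Rk2 P) :
    ∃ l : Fin 3 → k, l ≠ 0 ∧ ∑ i, C (l i) * (P i).Q = 0 := by
  obtain ⟨i, j, hij, h⟩ := h
  obtain ⟨m, hi, hj⟩ : ∃ m : Fin 3, m ≠ i ∧ m ≠ j := by
    clear h
    revert i j
    decide
  obtain ⟨u, v, e⟩ := h m
  refine ⟨Pi.single m 1 - Pi.single i u - Pi.single j v, fun q => ?_, ?_⟩
  · have := congrFun q m
    simp [hi, hj] at this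
  · have t : ∀ (a : Fin 3) (c : k), ∑ x, C ((Pi.single a c : Fin 3 → k) x) * (P x).Q =
        C c * (P a).Q := fun a c => by
      rw [Finset.sum_eq_single a (fun b _ hb => by simp [hb]) (by simp), Pi.single_eq_same]
    simp only [Pi.sub_apply, C_sub, sub_mul, Finset.sum_sub_distrib, t]
    rw [e, C_1]
    ring

theorem rig_of (h3 : StmtR3) (hv : VAL.S_VAL) : StmtRIG := by
  intro m z N T hT hm w ⟨wf, wa, wb⟩ ⟨y, S, h, hne, lf, la, lb, lA0, lB0, lA, lB⟩
  obtain ⟨u, hu, hneg⟩ : ∃ u : ℚ, (z.f * ∏ i, (X - C (z.a i))).eval u ≠ 0 ∧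
      (m = 0 → z.f.eval u < 0) := by
    rcases hm with rfl | ⟨rfl, e, he⟩
    · by_contra hc
      push Not at hc
      have : (z.f * ∏ i, (X - C (z.a i))) = 0 := Polynomial.funext fun u => by
        by_contra q
        exact absurd (hc u (by simpa using q)).1 (by decide)
      exact (z.mon.mul (monic_prod_of_monic _ _ fun i _ => monic_X_sub_C _)).ne_zero this
    · obtain ⟨u, hu⟩ := ex_neg z.sep (e := e 0) (by
        by_contra q
        rw [he] at q
        exact fz_ne q 0 (sub_self _))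
      refine ⟨u, ?_, fun _ => hu⟩
      rw [eval_mul, eval_prod]
      refine mul_ne_zero hu.ne (Finset.prod_ne_zero_iff.2 fun i _ q => ?_)
      rw [eval_sub, eval_X, eval_C, sub_eq_zero] at q
      rw [q, ← z.hb] at hu
      exact absurd hu (not_lt.2 (sq_nonneg _))
  rw [eval_mul, eval_prod, mul_ne_zero_iff, Finset.prod_ne_zero_iff] at hu
  have hfu := hu.1
  have hau : ∀ i, z.a i - u ≠ 0 := fun i q => hu.2 i (Finset.mem_univ i) (by
    rw [eval_sub, eval_X, eval_C, sub_eq_zero.1 q, sub_self])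
  obtain ⟨F, F1, F2, F3⟩ := lift _ _ 8 lf fun n => (y n).deg.le
  obtain ⟨A0, A01, A02, A03⟩ := lift _ _ N lA0 fun n => (h n).dA0.le
  obtain ⟨B0, B01, B02, B03⟩ := lift _ _ (N - 4) lB0 fun n => Nat.le_sub_of_add_le (h n).dB0
  choose A A1 A2 A3 using fun i => lift _ _ N (lA i) fun n => (h n).dA i
  choose B B1 B2 B3 using fun i => lift _ _ (N - 4) (lB i) fun n =>
    Nat.le_sub_of_add_le ((h n).dB i)
  let s : Seq N y S := ⟨F, fun i => mkC _ _ (tendsto_pi_nhds.1 la i),
    fun i => mkC _ _ (tendsto_pi_nhds.1 lb i), A0, B0, A, B, F1, A01, B01, A1, B1, F2,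
    fun _ _ => rfl, fun _ _ => rfl, A02, B02, fun n i => A2 i n, fun n i => B2 i n⟩
  have sa : ∀ i, ev none (s.a i) = w.a i := fun _ => rfl
  have sb : ∀ i, ev none (s.b i) = w.b i := fun _ => rfl
  obtain ⟨K, _, _, _, Φ, g⟩ := exK
  haveI : CharZero K := charZero_of_injective_algebraMap (algebraMap ℂ K).injective
  have hs : (s.f.map Φ).Separable := g.sep F1 (F3 ▸ w.deg) (F3 ▸ w.sep)
  let U : Cv := algebraMap ℂ Cv (algebraMap ℚ ℂ u)
  have eU : ev none U = algebraMap ℚ ℂ u := rfl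
  have aU : ∀ i, ev none (s.a i - U) ≠ 0 := fun i => by
    rw [map_sub, sa, eU, wa, ← map_sub]
    exact (_root_.map_ne_zero _).2 (hau i)
  have aK : ∀ i, (s.nf g hs).a i - Φ U ≠ 0 := fun i => by
    have := g.ne_lim (aU i)
    rwa [map_sub] at this
  have fK : (s.nf g hs).f.eval (Φ U) ≠ 0 := by
    change (F.map Φ).eval (Φ U) ≠ 0
    rw [← map_eval]
    apply g.ne_lim
    rw [map_eval, F3, wf, eU, ← map_eval]
    exact (_root_.map_ne_zero _).2 hfu
  have mU : Φ U ∈ (algebraMap ℂ K).range := ⟨_, (g.alg _).symm⟩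
  obtain ⟨P, o, inj, p0, ps, q0, qs⟩ := flipNF (s.nf g hs) (s.td Φ) (s.tor g hs h) aK
  obtain ⟨e, einj, he⟩ := ex_fz (s.nf g hs).mon (s.nf g hs).deg hs
  have hfl : fl 8 (Φ U) (s.nf g hs).f = C ((s.nf g hs).f.eval (Φ U)) *
      fz fun i => (e i - Φ U)⁻¹ := by
    rw [he] at fK ⊢
    exact fl_fz fK
  have d8 : (fl 8 (Φ U) (s.nf g hs).f).natDegree = 8 := by
    rw [hfl, natDegree_C_mul fK, fz_deg]
  let R := (algebraMap ℂ K).fieldRange
  have back : ∀ x : K, (x - Φ U)⁻¹ ∈ (algebraMap ℂ K).range → x ∈ (algebraMap ℂ K).range :=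
    fun x hx => by
      have : ((x - Φ U)⁻¹)⁻¹ + Φ U ∈ R := R.add_mem (R.inv_mem hx) mU
      rwa [inv_inv, sub_add_cancel] at this
  obtain ⟨sym, alt⟩ := daS ℂ K (Fin (m + 3)) _ N P 0 (Fin.succ 0) (Fin.succ 1) d8 o inj
    (Fin.succ_ne_zero _).symm (Fin.succ_ne_zero _).symm
    (fun q => absurd (Fin.succ_injective _ q) Fin.zero_ne_one) (p0 ▸ zero_mem _)
    (by rw [ps, (s.nf g hs).a0]; exact R.inv_mem (R.sub_mem R.zero_mem mU))
    (by rw [ps, (s.nf g hs).a1]; exact R.inv_mem (R.sub_mem R.one_mem mU))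
  rcases alt with ⟨r1, r2⟩ | ⟨rk, i, j, hij, tr⟩
  · have me : ∀ i, e i ∈ (algebraMap ℂ K).range := fun i => back _ (r1 _ (by
      rw [hfl, IsRoot, eval_mul, fz, eval_prod,
        Finset.prod_eq_zero (Finset.mem_univ i) (by simp), mul_zero]))
    choose e' he' using me
    have mf : ∀ i, Φ (F.coeff i) ∈ (algebraMap ℂ K).range := fun i => by
      refine ⟨(fz e').coeff i, ?_⟩
      rw [← coeff_map, ← coeff_map, fz_map, funext he', ← he]
      rfl
    have ma : ∀ i, Φ (s.a i) ∈ (algebraMap ℂ K).range := fun i => back _ (ps i ▸ r2 i.succ)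
    have mb : ∀ i, Φ (s.b i) ∈ (algebraMap ℂ K).range := fun i => by
      obtain ⟨c, hc⟩ := ma i
      obtain ⟨r, hr⟩ := IsAlgClosed.exists_pow_nat_eq ((fz e').eval c) two_pos
      have e1 : Φ (s.b i) ^ 2 = algebraMap ℂ K r ^ 2 := by
        rw [← map_pow (algebraMap ℂ K), hr, map_eval, fz_map, funext he', ← he, hc]
        exact (s.nf g hs).hb i
      rcases sq_eq_sq_iff_eq_or_eq_neg.1 e1 with q | q
      · exact ⟨r, q.symm⟩
      · exact ⟨-r, by rw [map_neg, q]⟩
    have E1 : ∀ᶠ n in (hyperfilter ℕ : Filter ℕ), ∀ i : Fin 9,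
        ev (some n) (F.coeff i) = ev none (F.coeff i) := eventually_all.2 fun i => g.fix (mf i)
    have E2 := eventually_all.2 fun i => g.fix (ma i)
    have E3 := eventually_all.2 fun i => g.fix (mb i)
    obtain ⟨n, n1, n2, n3⟩ := (E1.and (E2.and E3)).exists
    refine hne n ⟨?_, funext n2, funext n3⟩
    rw [← F2, ← F3]
    ext i
    rw [coeff_map, coeff_map]
    rcases Nat.lt_or_ge i 9 with q | q
    · exact n1 ⟨i, q⟩
    · rw [coeff_eq_zero_of_natDegree_lt (by omega), map_zero, map_zero]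
  · rcases hm with rfl | ⟨rfl, e₀, he₀⟩
    · refine hv K _ N P d8 ?_ o inj rk sym i j hij tr
      rw [hfl]
      exact Separable.unit_mul (isUnit_C.2 fK.isUnit) (separable_prod_X_sub_C_iff.2 (inv_inj _ einj))
    · obtain ⟨P', o', inj', _, _, q0', qs'⟩ := flipNF z T hT hau
      have e₀inj : Function.Injective e₀ := separable_prod_X_sub_C_iff.1 (by
        have := z.sep
        rwa [he₀] at this)
      have hfl' : (fl 8 u z.f).map (algebraMap ℚ ℝ) = C (algebraMap ℚ ℝ (z.f.eval u)) *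
          fz fun i => algebraMap ℚ ℝ (e₀ i - u)⁻¹ := by
        rw [he₀] at hfu ⊢
        rw [fl_fz hfu, Polynomial.map_mul, map_C, fz_map]
      have li := h3 _ _ N (fun i => (P' i).map (algebraMap ℚ ℝ))
        (show algebraMap ℚ ℝ (z.f.eval u) < 0 by simpa using hneg rfl)
        ((algebraMap ℚ ℝ).injective.comp (inv_inj u e₀inj))
        (fun i => hfl' ▸ OK_map _ (o' i)) ((algebraMap ℚ ℝ).injective.comp inj')
      let G : Fin 3 → Cv[X] := Fin.cons (Qh N U F A0 B0 0)
        fun i => Qh N U F (A i) (B i) (inv _ (aU i))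
      have GK : ∀ i, ∃ c, c ≠ 0 ∧ (G i).map Φ = C c * (P i).Q := fun i => by
        refine Fin.cases ?_ (fun i => ?_) i
        · simp only [G, Fin.cons_zero, Qh_map, map_zero]
          exact q0
        · simp only [G, Fin.cons_succ, Qh_map, g.inv, map_sub]
          exact qs i
      have GL0 : ∀ i, ∃ c : ℚ, c ≠ 0 ∧ (G i).map (ev none) =
          (C c * (P' i).Q).map (algebraMap ℚ ℂ) := fun i => by
        refine Fin.cases ?_ (fun i => ?_) i
        · obtain ⟨c, c0, hc⟩ := q0'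
          refine ⟨c, c0, ?_⟩
          rw [← hc]
          simp only [G, Fin.cons_zero, Qh_map, map_zero, F3, A03, B03, wf, eU]
          rfl
        · obtain ⟨c, c0, hc⟩ := qs' i
          refine ⟨c, c0, ?_⟩
          have e1 : ev none (inv _ (aU i)) = algebraMap ℚ ℂ (z.a i - u)⁻¹ := by
            rw [map_inv₀, map_sub, ← wa]
            rfl
          rw [← hc]
          simp only [G, Fin.cons_succ, Qh_map, F3, A3, B3, wf, eU, e1]
          rfl
      choose c c0 hc using GK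
      choose c' c0' hc' using GL0
      obtain ⟨l, l0, hl⟩ := dep3 rk
      have li' := li.units_smul fun i => Units.mk0 (algebraMap ℚ ℝ (c' i))
        ((_root_.map_ne_zero _).2 (c0' i))
      have := g.indep G _ li' (fun i => by
        rw [hc', IsScalarTower.algebraMap_eq ℚ ℝ ℂ, ← Polynomial.map_map]
        congr 1
        simp [PD.map, smul_eq_C_mul]) (fun i => l i * (c i)⁻¹) (by
        rw [← hl]
        refine Finset.sum_congr rfl fun i _ => ?_
        rw [hc, ← mul_assoc, ← C_mul, inv_mul_cancel_right₀ (c0 i)])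
      exact l0 (funext fun i =>
        (mul_eq_zero.1 (congrFun this i)).resolve_right (inv_ne_zero (c0 i)))

theorem rig (h4 : StmtR4) : StmtRIG := rig_of (R3.r3 pellS) (VAL.val pellS h4)

end

end Pool.Agent.MP_8d06cc_nt.RIG
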