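import Pool.Agent.MP_8d06cc_nt.AB.Spec
import Pool.Agent.MP_8d06cc_nt.DA.Pell

/-! Moving the point at infinity to the origin. -/

namespace Pool.Agent.MP_8d06cc_nt.RIG

open Polynomial
open DA AB

noncomputable section

/-- `X ^ n * g (u + 1 / X)` -/
def fl {R : Type} [CommRing R] (n : ℕ) (u : R) (g : R[X]) : R[X] := reflect n (taylor u g)

theorem fl_map {R S : Type} [CommRing R] [CommRing S] (h : R →+* S) (n : ℕ) (u : R) (g : R[X]) :
    (fl n u g).map h = fl n (h u) (g.map h) := by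
  rw [fl, fl, ← reflect_map, map_taylor]

/-- the cubic up to a constant -/
def Qh {R : Type} [CommRing R] (N : ℕ) (u : R) (f A B : R[X]) (a : R) : R[X] :=
  WW derivative (fl 8 u f) (fl N u A) (fl (N - 4) u B) /ₘ (X - C a) ^ (2 * N - 1)

theorem WW_map {R S : Type} [CommRing R] [CommRing S] (h : R →+* S) (f A B : R[X]) :
    (WW derivative f A B).map h = WW derivative (f.map h) (A.map h) (B.map h) := by
  simp [WW, derivative_map]

theorem Qh_map {R S : Type} [CommRing R] [CommRing S] (h : R →+* S) (N : ℕ) (u : R)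
    (f A B : R[X]) (a : R) :
    (Qh N u f A B a).map h = Qh N (h u) (f.map h) (A.map h) (B.map h) (h a) := by
  rw [Qh, Qh, map_divByMonic h ((monic_X_sub_C a).pow _), WW_map, fl_map, fl_map, fl_map]
  simp

variable {k : Type} [Field k]

theorem OK_map {K : Type} [Field K] (h : k →+* K) {f : k[X]} {N : ℕ} {P : PD k} (o : P.OK f N) :
    (P.map h).OK (f.map h) N where
  pos := o.pos
  dA := natDegree_map_le.trans o.dA
  dB := le_trans (Nat.add_le_add_right natDegree_map_le 4) o.dB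
  eqn := by simpa [PD.map] using congrArg (Polynomial.map h) o.eqn
  hc := (_root_.map_ne_zero h).2 o.hc
  hA := by simpa [PD.map, eval_map, eval₂_at_apply] using o.hA
  hf := by simpa [PD.map, eval_map, eval₂_at_apply] using o.hf
  hb := by simpa [PD.map, eval_map, eval₂_at_apply] using congrArg h o.hb
  hQ := by
    have := congrArg (Polynomial.map h) o.hQ
    rw [WW_map] at this
    simp only [Polynomial.map_mul, Polynomial.map_pow, Polynomial.map_sub, map_C, map_X] at this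
    simp only [map_mul, map_natCast, map_ofNat] at this ⊢
    exact this

theorem fl_deg {n : ℕ} (u : k) {g : k[X]} (hg : g.natDegree ≤ n) : (fl n u g).natDegree ≤ n :=
  natDegree_reflect_le.trans (max_le le_rfl (by rwa [natDegree_taylor]))

theorem fl_top (n : ℕ) (u : k) (g : k[X]) : (fl n u g).coeff n = g.eval u := by
  rw [fl, coeff_reflect, revAt_le le_rfl, Nat.sub_self, taylor_coeff_zero]

theorem fl_zero (u : k) (g : k[X]) : (fl g.natDegree u g).eval 0 = g.leadingCoeff := by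
  rw [← coeff_zero_eq_eval_zero, fl, coeff_reflect, revAt_zero, coeff_taylor_natDegree]

theorem fl_eval {n : ℕ} (u : k) {g : k[X]} (hg : g.natDegree ≤ n) {x : k} (hx : x ≠ 0) :
    (fl n u g).eval x = x ^ n * g.eval (x⁻¹ + u) := by
  haveI : Invertible x⁻¹ := invertibleOfNonzero (inv_ne_zero hx)
  have := eval₂_reflect_mul_pow (RingHom.id k) x⁻¹ n (taylor u g) (by rwa [natDegree_taylor])
  rw [invOf_eq_inv, inv_inv, eval₂_id, eval₂_id, taylor_eval] at this
  rw [← this, fl, mul_comm, mul_assoc, ← mul_pow, inv_mul_cancel₀ hx, one_pow, mul_one]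

theorem ext0 [CharZero k] {p q : k[X]} (h : ∀ x, x ≠ 0 → p.eval x = q.eval x) : p = q :=
  eq_of_infinite_eval_eq p q (((Set.finite_singleton (0 : k)).infinite_compl).mono h)

theorem fl_norm {f A B : k[X]} {N : ℕ} (u : k) (hf : f.natDegree ≤ 8) (dA : A.natDegree ≤ N)
    (dB : B.natDegree + 4 ≤ N) {x : k} (hx : x ≠ 0) :
    (fl N u A ^ 2 - fl 8 u f * fl (N - 4) u B ^ 2).eval x =
      x ^ (2 * N) * (A ^ 2 - f * B ^ 2).eval (x⁻¹ + u) := by
  obtain ⟨M, rfl⟩ : ∃ M, N = M + 4 := ⟨N - 4, by omega⟩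
  simp only [eval_sub, eval_mul, eval_pow, Nat.add_sub_cancel]
  rw [fl_eval u dA hx, fl_eval u hf hx, fl_eval u (n := M) (by omega) hx]
  ring

theorem Qh_eq {f A B Q : k[X]} {N : ℕ} {u a b c : k}
    (o : (PD.mk a b c (fl N u A) (fl (N - 4) u B) Q).OK (fl 8 u f) N) :
    Qh N u f A B a = C (2 * N * c) * Q := by
  have h := o.hQ
  dsimp only at h
  rw [Qh, h, mul_comm (C _), mul_assoc, mul_divByMonic_cancel_left _ ((monic_X_sub_C _).pow _)]

theorem flipP [CharZero k] {f A B : k[X]} {N : ℕ} {u a c : k} (hf : f.natDegree ≤ 8)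
    (dA : A.natDegree ≤ N) (dB : B.natDegree + 4 ≤ N)
    (he : A ^ 2 - f * B ^ 2 = C c * (X - C a) ^ (2 * N)) (hc : c ≠ 0) (hA : A.eval a ≠ 0)
    (hfa : f.eval a ≠ 0) (hu : a - u ≠ 0) : ∃ P : PD k, P.OK (fl 8 u f) N ∧ P.a = (a - u)⁻¹ ∧
      ∃ c, c ≠ 0 ∧ Qh N u f A B (a - u)⁻¹ = C c * P.Q := by
  have i0 := inv_ne_zero hu
  have e : ((a - u)⁻¹)⁻¹ + u = a := by rw [inv_inv, sub_add_cancel]
  obtain ⟨b, Q, o⟩ := pellS.ex k (fl 8 u f) (fl N u A) (fl (N - 4) u B) N (a - u)⁻¹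
    (c * (u - a) ^ (2 * N)) (by omega) (fl_deg u dA)
    (by have := fl_deg u (n := N - 4) (g := B) (by omega); omega)
    (ext0 fun x hx => by
      rw [fl_norm u hf dA dB hx, he]
      simp only [eval_sub, eval_mul, eval_pow, eval_C, eval_X]
      rw [mul_left_comm, mul_assoc, ← mul_pow, ← mul_pow]
      congr 2
      field_simp
      ring)
    (mul_ne_zero hc (pow_ne_zero _ (sub_ne_zero.2 (sub_ne_zero.1 hu).symm)))
    (by rw [fl_eval u dA i0, e]; exact mul_ne_zero (pow_ne_zero _ i0) hA)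
    (by rw [fl_eval u hf i0, e]; exact mul_ne_zero (pow_ne_zero _ i0) hfa)
  refine ⟨_, o, rfl, _, o.c2, ?_⟩
  dsimp only
  exact Qh_eq o

theorem flipI [CharZero k] {f A B : k[X]} {N : ℕ} {c : k} (u : k) (hf : f.natDegree = 8)
    (dA : A.natDegree = N) (dB : B.natDegree + 4 ≤ N) (he : A ^ 2 - f * B ^ 2 = C c)
    (hc : c ≠ 0) : ∃ P : PD k, P.OK (fl 8 u f) N ∧ P.a = 0 ∧
      ∃ c, c ≠ 0 ∧ Qh N u f A B 0 = C c * P.Q := by
  have n0 : ∀ g : k[X], 0 < g.natDegree → (fl g.natDegree u g).eval 0 ≠ 0 := fun g hg => by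
    rw [fl_zero, leadingCoeff_ne_zero]
    rintro rfl
    simp at hg
  obtain ⟨b, Q, o⟩ := pellS.ex k (fl 8 u f) (fl N u A) (fl (N - 4) u B) N 0 c (by omega)
    (fl_deg u dA.le) (by have := fl_deg u (n := N - 4) (g := B) (by omega); omega)
    (ext0 fun x hx => by
      rw [fl_norm u hf.le dA.le dB hx, he]
      rw [C_0, sub_zero, eval_mul, eval_pow, eval_C, eval_C, eval_X, mul_comm])
    hc (by have := n0 A (by omega); rwa [dA] at this)
    (by have := n0 f (by omega); rwa [hf] at this)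
  refine ⟨_, o, rfl, _, o.c2, ?_⟩
  dsimp only
  exact Qh_eq o

theorem fz_monic {R : Type} [CommRing R] (e : Fin 8 → R) : (fz e).Monic :=
  monic_prod_of_monic _ _ fun i _ => monic_X_sub_C _

theorem fz_deg (e : Fin 8 → k) : (fz e).natDegree = 8 := by
  rw [fz, natDegree_prod_of_monic _ _ fun i _ => monic_X_sub_C _]
  simp

theorem fz_map {R S : Type} [CommRing R] [CommRing S] (h : R →+* S) (e : Fin 8 → R) :
    (fz e).map h = fz fun i => h (e i) := by
  simp [fz, Polynomial.map_prod]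

theorem fz_ne {e : Fin 8 → k} {u : k} (h : (fz e).eval u ≠ 0) (i : Fin 8) : e i - u ≠ 0 := by
  intro h0
  apply h
  rw [fz, eval_prod]
  exact Finset.prod_eq_zero (Finset.mem_univ i) (by simp [sub_eq_zero.1 h0])

theorem fl_fz [CharZero k] {e : Fin 8 → k} {u : k} (h : (fz e).eval u ≠ 0) :
    fl 8 u (fz e) = C ((fz e).eval u) * fz fun i => (e i - u)⁻¹ := by
  refine ext0 fun x hx => ?_
  rw [fl_eval u (fz_deg e).le hx]
  simp only [fz, eval_mul, eval_C, eval_prod, eval_sub, eval_X]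
  rw [← Finset.prod_mul_distrib, show x ^ 8 = ∏ _i : Fin 8, x by simp, ← Finset.prod_mul_distrib]
  refine Finset.prod_congr rfl fun i _ => ?_
  have := fz_ne h i
  field_simp
  ring

theorem inv_inj {ι : Type} {e : ι → k} (u : k) (h : Function.Injective e) :
    Function.Injective fun i => (e i - u)⁻¹ := fun _ _ q => h (sub_left_injective (inv_injective q))

theorem ex_fz [IsAlgClosed k] {f : k[X]} (hm : f.Monic) (hd : f.natDegree = 8)
    (hs : f.Separable) : ∃ e : Fin 8 → k, Function.Injective e ∧ f = fz e := by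
  classical
  have hsp := IsAlgClosed.splits f
  have hc : f.roots.toFinset.card = 8 := by
    rw [Multiset.toFinset_card_of_nodup (nodup_roots hs), ← hsp.natDegree_eq_card_roots, hd]
  let σ := (Finset.equivFinOfCardEq hc).symm
  refine ⟨fun i => σ i, fun i j q => σ.injective (Subtype.ext q), ?_⟩
  rw [fz, Equiv.prod_comp σ (fun x : f.roots.toFinset => X - C (x : k)),
    Finset.prod_coe_sort f.roots.toFinset fun x => X - C x, Finset.prod_eq_multiset_prod,
    Multiset.toFinset_val, (nodup_roots hs).dedup]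
  exact hsp.eq_prod_roots_of_monic hm

/-- the flipped data of a normal form -/
theorem flipNF [CharZero k] {m N : ℕ} (z : NF k m) (T : TD k m) (h : z.Tor N T) {u : k}
    (hu : ∀ i, z.a i - u ≠ 0) : ∃ P : Fin (m + 3) → PD k, (∀ i, (P i).OK (fl 8 u z.f) N) ∧
      (Function.Injective fun i => (P i).a) ∧ (P 0).a = 0 ∧
      (∀ i : Fin (m + 2), (P i.succ).a = (z.a i - u)⁻¹) ∧
      (∃ c, c ≠ 0 ∧ Qh N u z.f T.A0 T.B0 0 = C c * (P 0).Q) ∧
      ∀ i : Fin (m + 2), ∃ c, c ≠ 0 ∧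
        Qh N u z.f (T.A i) (T.B i) (z.a i - u)⁻¹ = C c * (P i.succ).Q := by
  obtain ⟨c, c0, he⟩ := h.eq0
  obtain ⟨P₀, o₀, a₀, q₀⟩ := flipI u z.deg h.dA0 h.dB0 he c0
  choose c' c0' he' using h.eqn
  choose P o a q using fun i => flipP z.deg.le (h.dA i) (h.dB i) (he' i) (c0' i) (h.hA i)
    (by rw [← z.hb i]; exact pow_ne_zero 2 (z.b0 i)) (hu i)
  refine ⟨Fin.cons P₀ P, fun i => Fin.cases o₀ o i, ?_, a₀, a, q₀, q⟩
  have e : (fun i => (Fin.cons (α := fun _ => PD k) P₀ P i).a) =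
      Fin.cons (α := fun _ => k) 0 fun i => (z.a i - u)⁻¹ := by
    funext i
    exact Fin.cases a₀ a i
  rw [e, Fin.cons_injective_iff]
  exact ⟨fun ⟨i, hi⟩ => inv_ne_zero (hu i) hi, inv_inj u z.ainj⟩

theorem ex_neg {f : ℚ[X]} (hs : f.Separable) {e : ℚ} (he : f.IsRoot e) : ∃ u, f.eval u < 0 := by
  obtain ⟨g, rfl⟩ := dvd_iff_isRoot.2 he
  have g0 : g.eval e ≠ 0 := fun h0 => by
    obtain ⟨t, rfl⟩ := dvd_iff_isRoot.2 h0
    exact not_isUnit_X_sub_C e (hs.squarefree _ ⟨t, by ring⟩)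
  have hc := g.continuous.tendsto e
  rcases g0.lt_or_gt with h | h
  · obtain ⟨u, h1, h2⟩ := (((hc.eventually (gt_mem_nhds h)).filter_mono
      (nhdsWithin_le_nhds (s := Set.Ioi e))).and self_mem_nhdsWithin).exists
    exact ⟨u, by simpa using mul_neg_of_pos_of_neg (sub_pos.2 h2) h1⟩
  · obtain ⟨u, h1, h2⟩ := (((hc.eventually (lt_mem_nhds h)).filter_mono
      (nhdsWithin_le_nhds (s := Set.Iio e))).and self_mem_nhdsWithin).exists
    exact ⟨u, by simpa using mul_neg_of_neg_of_pos (sub_neg.2 h2) h1⟩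

end

end Pool.Agent.MP_8d06cc_nt.RIG
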